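import Mathlib

set_option autoImplicit false

namespace Pool.Agent.Results.MP_52931c_nt.PolyLog

open Finset

/-- `A` nearly contains a `(t, d, w)`-progression: for some `b ≥ 0`, each block
`[b + i d, b + i d + w]` with `1 ≤ i ≤ t - 1` meets `A`. -/
def NearlyContains (A : Finset ℕ) (t d w : ℕ) : Prop :=
  ∃ b : ℕ, ∀ i : ℕ, 1 ≤ i → i ≤ t - 1 → ∃ a ∈ A, b + i * d ≤ a ∧ a ≤ b + i * d + w

/-- `(d, w)` is admissible for `n`: `d` is a power of two and `w / d < d / n`. -/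
def Admissible (n d w : ℕ) : Prop :=
  (∃ j : ℕ, d = 2 ^ j) ∧ (w : ℝ) / d < (d : ℝ) / n

theorem pow_mod_six (i : ℕ) : 2 ^ (i + 1) % 6 = 2 ∨ 2 ^ (i + 1) % 6 = 4 := by
  induction i with
  | zero => simp
  | succ i ih => rw [pow_succ]; omega

theorem level (s i x y w : ℕ) (hw : w ≤ 2 ^ s) (h1 : x + 2 ^ (s + (i + 1)) ≤ y + w)
    (h2 : y ≤ x + 2 ^ (s + (i + 1)) + w) : x / 2 ^ s % 6 ≠ y / 2 ^ s % 6 := by
  have hu : 0 < 2 ^ s := by positivity
  have h6 := pow_mod_six i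
  rw [pow_add] at h1 h2
  generalize 2 ^ s = u at *
  generalize 2 ^ (i + 1) = e at *
  have a1 : (x + u * e) / u ≤ (y + u * 1) / u := Nat.div_le_div_right (by omega)
  have a2 : y / u ≤ (x + u * (e + 1)) / u := Nat.div_le_div_right (by rw [mul_add]; omega)
  rw [Nat.add_mul_div_left _ _ hu] at a1 a2
  rw [Nat.add_mul_div_left _ _ hu] at a1
  omega

theorem exists_set (n : ℕ) (hn : 1 ≤ n) :
    ∃ A : Finset ℕ, A ⊆ Icc 1 n ∧ n ≤ 6 ^ (Nat.log 2 (Nat.log 2 n) + 2) * A.card ∧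
      ∀ t, 3 ≤ t → ∀ d w, Admissible n d w → ¬ NearlyContains A t d w := by
  classical
  set L := Nat.log 2 n with hL
  set m := Nat.log 2 L with hm
  let c : ℕ → Fin (m + 2) → Fin 6 := fun x i => ⟨x / 2 ^ (L - 2 ^ i.val) % 6, Nat.mod_lt _ (by norm_num)⟩
  obtain ⟨v, -, hv⟩ : ∃ v ∈ (univ : Finset (Fin (m + 2) → Fin 6)),
      n ≤ 6 ^ (m + 2) * ((Icc 1 n).filter (fun x => c x = v)).card := by
    by_contra hcon
    push Not at hcon
    have h1 : (Icc 1 n).card = ∑ v ∈ (univ : Finset (Fin (m + 2) → Fin 6)),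
        ((Icc 1 n).filter (fun x => c x = v)).card :=
      card_eq_sum_card_fiberwise (fun _ _ => mem_univ _)
    have h2 := sum_lt_sum_of_nonempty univ_nonempty hcon
    rw [← mul_sum, ← h1] at h2
    simp at h2
  refine ⟨_, filter_subset _ _, hv, fun t ht d w hadm => ?_⟩
  obtain ⟨⟨j, rfl⟩, hw⟩ := hadm
  rintro ⟨b, hb⟩
  obtain ⟨x, hx, hx1, hx2⟩ := hb 1 le_rfl (by omega)
  obtain ⟨y, hy, hy1, hy2⟩ := hb 2 (by norm_num) (by omega)
  rw [mem_filter, mem_Icc] at hx hy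
  have hc : c x = c y := hx.2.trans hy.2.symm
  have hn0 : (0 : ℝ) < n := by exact_mod_cast hn
  rw [div_lt_div_iff₀ (by positivity) hn0] at hw
  have hw' : w * n < 2 ^ j * 2 ^ j := by exact_mod_cast hw
  have hL1 : 2 ^ L ≤ n := Nat.pow_log_le_self 2 (by omega)
  have hL2 : j + 1 ≤ L := by
    refine Nat.le_log_of_pow_le (by norm_num) ?_
    rw [pow_succ]; omega
  have hw2 : w * 2 ^ L < 2 ^ (j + j) := by
    rw [pow_add]; exact lt_of_le_of_lt (Nat.mul_le_mul_left _ hL1) hw'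
  have hm2 : L < 2 ^ (m + 1) := Nat.lt_pow_succ_log_self (by norm_num) L
  set r := L - j with hr
  set i := Nat.log 2 r + 1 with hi
  have hi1 : r < 2 ^ i := Nat.lt_pow_succ_log_self (by norm_num) r
  have hi2 : 2 ^ i ≤ 2 * r := by
    rw [hi, pow_succ]
    have := Nat.pow_log_le_self 2 (show r ≠ 0 by omega)
    omega
  have hi3 : i < m + 2 := by
    have : Nat.log 2 r ≤ m := Nat.log_mono_right (by omega)
    omega
  have hci : x / 2 ^ (L - 2 ^ i) % 6 = y / 2 ^ (L - 2 ^ i) % 6 :=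
    congrArg Fin.val (congrFun hc ⟨i, hi3⟩)
  have hws : w < 2 ^ (L - 2 ^ i) := by
    have h1 : 2 ^ (j + j) ≤ 2 ^ (L - 2 ^ i + L) := Nat.pow_le_pow_right (by norm_num) (by omega)
    rw [pow_add 2 (L - 2 ^ i)] at h1
    exact Nat.lt_of_mul_lt_mul_right (lt_of_lt_of_le hw2 h1)
  rcases Nat.eq_zero_or_pos j with hj | hj
  · have hs : L - 2 ^ i = 0 := by omega
    rw [hs] at hci hws
    subst hj
    simp only [pow_zero, Nat.div_one] at *
    omega
  · obtain ⟨e, he⟩ : ∃ e, j = L - 2 ^ i + (e + 1) := ⟨j - (L - 2 ^ i) - 1, by omega⟩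
    refine level (L - 2 ^ i) e x y w hws.le ?_ ?_ hci <;> rw [← he] <;> omega

/-- For every large `n` there is `A ⊆ [1, n]` with `|A| ≥ n / (log n) ^ 4` that nearly contains no
`(t, d, w)`-progression with `t ≥ 3` and `(d, w)` admissible for `n`. -/
theorem result : ∃ n0 : ℕ, ∀ n : ℕ, n0 ≤ n → ∃ A : Finset ℕ, A ⊆ Finset.Icc 1 n ∧
    1 / Real.log n ^ 4 ≤ (A.card : ℝ) / n ∧
    ∀ t : ℕ, 3 ≤ t → ∀ d w : ℕ, Admissible n d w → ¬ NearlyContains A t d w := by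
  obtain ⟨n0, hn0⟩ := Filter.eventually_atTop.mp
    ((Real.tendsto_log_atTop.comp tendsto_natCast_atTop_atTop).eventually_ge_atTop 288)
  refine ⟨max n0 2, fun n hn => ?_⟩
  have hn2 : 2 ≤ n := le_of_max_le_right hn
  have hlog : 288 ≤ Real.log n := hn0 n (le_of_max_le_left hn)
  obtain ⟨A, hA1, hA2, hA3⟩ := exists_set n (by omega)
  refine ⟨A, hA1, ?_, hA3⟩
  have hn0' : (0 : ℝ) < n := by positivity
  set L := Nat.log 2 n with hL
  have hL0 : L ≠ 0 := (Nat.log_pos (by norm_num) hn2).ne'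
  have h1 : 6 ^ (Nat.log 2 L + 2) ≤ 36 * L ^ 3 := by
    have a1 : 2 ^ Nat.log 2 L ≤ L := Nat.pow_log_le_self 2 hL0
    calc 6 ^ (Nat.log 2 L + 2) = 36 * 6 ^ Nat.log 2 L := by ring
      _ ≤ 36 * 8 ^ Nat.log 2 L := by gcongr; norm_num
      _ = 36 * (2 ^ Nat.log 2 L) ^ 3 := by rw [← pow_mul, mul_comm _ 3, pow_mul]; norm_num
      _ ≤ 36 * L ^ 3 := by gcongr
  have h2 : (L : ℝ) ≤ 2 * Real.log n := by
    have a1 : ((2 ^ L : ℕ) : ℝ) ≤ n := by exact_mod_cast Nat.pow_log_le_self 2 (by omega)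
    have a2 := Real.log_le_log (by positivity) a1
    rw [Nat.cast_pow, Real.log_pow] at a2
    have a3 := Real.log_two_gt_d9
    have a4 : (0 : ℝ) ≤ L := by positivity
    push_cast at a2
    nlinarith
  have h3 : (n : ℝ) ≤ 36 * (L : ℝ) ^ 3 * A.card := by
    exact_mod_cast hA2.trans (Nat.mul_le_mul_right _ h1)
  rw [div_le_div_iff₀ (by positivity) hn0', one_mul]
  calc (n : ℝ) ≤ 36 * (L : ℝ) ^ 3 * A.card := h3
    _ ≤ 36 * (2 * Real.log n) ^ 3 * A.card := by gcongr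
    _ = A.card * (288 * Real.log n ^ 3) := by ring
    _ ≤ A.card * (Real.log n * Real.log n ^ 3) := by gcongr
    _ = _ := by ring

end Pool.Agent.Results.MP_52931c_nt.PolyLog
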